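import Mathlib

/-!
Exhaustive simplification by (S1) and (S2) does not give a unique reduced position.
-/

namespace Pool.Agent.Results.MP_31d4f2_co.NoCanon

/-- Positions: the terminals `*L` (`term true`) and `*R` (`term false`), and positions with
`n + 1` options. -/
inductive Pos
  | term (b : Bool)
  | node (n : ℕ) (f : Fin (n + 1) → Pos)

open Pos

/-- sum of a terminal position and a position -/
def addT (a : Bool) : Pos → Pos
  | term b => term (a == b)
  | node m g => node m fun j => addT a (g j)

/-- sum of a non-terminal position `G` with `n + 1` options and a position, where `r i` is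
addition of the `i`-th option of `G` -/
def addN (n : ℕ) (r : Fin (n + 1) → Pos → Pos) : Pos → Pos
  | term b => node n fun i => r i (term b)
  | node m g => node (n + 1 + m)
      (Fin.append (m := n + 1) (n := m + 1) (fun i => r i (node m g)) fun j => addN n r (g j))

/-- disjunctive sum -/
def add : Pos → Pos → Pos
  | term a => addT a
  | node n f => addN n fun i => add (f i)

/-- Left wins; the flag says whether Left moves first -/
def LW : Pos → Bool → Prop
  | term b, _ => b = true
  | node _ f, true => ∃ i, LW (f i) false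
  | node _ f, false => ∀ i, LW (f i) true

/-- equal outcomes in all sums -/
def Eqv (G H : Pos) : Prop := ∀ X t, LW (add G X) t ↔ LW (add H X) t

def Iso : Pos → Pos → Prop
  | term a, term b => a = b
  | node _ f, node _ g => (∀ i, ∃ j, Iso (f i) (g j)) ∧ ∀ j, ∃ i, Iso (f i) (g j)
  | _, _ => False

/-- `{G}` -/
def one (G : Pos) : Pos := node 0 fun _ => G

/-- the first position has an option equivalent to the second -/
def HasOpt : Pos → Pos → Prop
  | term _, _ => False
  | node _ f, H => ∃ i, Eqv (f i) H

/-- one simplification step, at the root or at a position of the game tree -/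
inductive Step : Pos → Pos → Prop
  | s1 (n f b i) : Eqv (f i) (one (term b)) → (∀ j, HasOpt (f j) (term b)) →
      Step (node n f) (term b)
  | s2 (n f i) : 1 ≤ n → (∀ j, j ≠ i → HasOpt (f j) (one (f i))) → Step (node n f) (one (f i))
  | inner (n f i H) : Step (f i) H → Step (node n f) (node n (Function.update f i H))

def Reduced (G : Pos) : Prop := ∀ H, ¬ Step G H

def Y : Pos := node 1 ![term true, term false]
def Y' : Pos := node 2 ![term true, term false, one Y]

lemma add_node (n : ℕ) (f : Fin (n + 1) → Pos) (m : ℕ) (g : Fin (m + 1) → Pos) :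
    (LW (add (node n f) (node m g)) true ↔
      (∃ i, LW (add (f i) (node m g)) false) ∨ ∃ j, LW (add (node n f) (g j)) false) ∧
    (LW (add (node n f) (node m g)) false ↔
      (∀ i, LW (add (f i) (node m g)) true) ∧ ∀ j, LW (add (node n f) (g j)) true) := by
  constructor
  · refine ⟨fun ⟨k, hk⟩ => ?_, ?_⟩
    · revert hk
      refine Fin.addCases (m := n + 1) (n := m + 1) (fun i => ?_) (fun j => ?_) k
      · rw [Fin.append_left]; exact fun h => Or.inl ⟨i, h⟩
      · rw [Fin.append_right]; exact fun h => Or.inr ⟨j, h⟩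
    · rintro (⟨i, h⟩ | ⟨j, h⟩)
      · exact ⟨Fin.castAdd (m + 1) i, by rw [Fin.append_left]; exact h⟩
      · exact ⟨Fin.natAdd (n + 1) j, by rw [Fin.append_right]; exact h⟩
  · refine ⟨fun h => ⟨fun i => ?_, fun j => ?_⟩, fun h k => ?_⟩
    · have := h (Fin.castAdd (m + 1) i)
      rwa [Fin.append_left] at this
    · have := h (Fin.natAdd (n + 1) j)
      rwa [Fin.append_right] at this
    · refine Fin.addCases (m := n + 1) (n := m + 1) (fun i => ?_) (fun j => ?_) k
      · rw [Fin.append_left]; exact h.1 i
      · rw [Fin.append_right]; exact h.2 j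

lemma add_term (n : ℕ) (f : Fin (n + 1) → Pos) (b : Bool) :
    (LW (add (node n f) (term b)) true ↔ ∃ i, LW (add (f i) (term b)) false) ∧
    (LW (add (node n f) (term b)) false ↔ ∀ i, LW (add (f i) (term b)) true) :=
  ⟨Iff.rfl, Iff.rfl⟩

lemma one_congr {G H : Pos} (h : Eqv G H) : Eqv (one G) (one H) := by
  intro X
  induction X with
  | term b =>
    rintro (_ | _)
    · simp only [one, (add_term _ _ _).2, h (term b) true]
    · simp only [one, (add_term _ _ _).1, h (term b) false]
  | node m g ih =>
    simp only [one] at ih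
    rintro (_ | _)
    · simp only [one, (add_node _ _ _ _).2, h (node m g) true, ih]
    · simp only [one, (add_node _ _ _ _).1, h (node m g) false, ih]

lemma one_opt (G X : Pos) : (LW (add (one G) X) false → LW (add G X) true) ∧
    (LW (add G X) false → LW (add (one G) X) true) := by
  cases X with
  | term b => exact ⟨fun h => (add_term _ _ _).2.1 h 0, fun h => (add_term _ _ _).1.2 ⟨0, h⟩⟩
  | node m g => exact ⟨fun h => ((add_node _ _ _ _).2.1 h).1 0,
      fun h => (add_node _ _ _ _).1.2 (Or.inl ⟨0, h⟩)⟩

lemma YY' : Eqv Y Y' := by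
  intro X
  have h := one_opt Y X
  induction X with
  | term b =>
    rintro (_ | _)
    · have := (add_term 1 ![term true, term false] b).2
      rw [Y', (add_term _ _ _).2]
      simp only [Fin.forall_fin_succ, Y] at *
      simp at *
      tauto
    · have := (add_term 1 ![term true, term false] b).1
      rw [Y', (add_term _ _ _).1]
      simp only [Fin.exists_fin_succ, Y] at *
      simp at *
      tauto
  | node m g ih =>
    have ih' := fun j => ih j (one_opt Y _)
    rintro (_ | _)
    · have := (add_node 1 ![term true, term false] m g).2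
      rw [Y', (add_node _ _ _ _).2, ← Y']
      simp only [← ih']
      simp only [Fin.forall_fin_succ (n := 2), Fin.forall_fin_two, Y] at *
      simp at *
      tauto
    · have := (add_node 1 ![term true, term false] m g).1
      rw [Y', (add_node _ _ _ _).1, ← Y']
      simp only [← ih']
      simp only [Fin.exists_fin_succ (n := 2), Fin.exists_fin_two, Y] at *
      simp at *
      tauto

lemma Eqv.refl (G : Pos) : Eqv G G := fun _ _ => Iff.rfl

lemma red_term (b : Bool) : Reduced (term b) := fun _ h => by cases h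

lemma red_node {n : ℕ} {f : Fin (n + 1) → Pos}
    (h1 : ∀ b i, Eqv (f i) (one (term b)) → ∃ j, ¬ HasOpt (f j) (term b))
    (h2 : 1 ≤ n → ∀ i, ∃ j, j ≠ i ∧ ¬ HasOpt (f j) (one (f i))) (h3 : ∀ i, Reduced (f i)) :
    Reduced (node n f) := by
  intro H h
  cases h with
  | s1 _ _ b i a c => obtain ⟨j, hj⟩ := h1 b i a; exact hj (c j)
  | s2 _ _ i a c => obtain ⟨j, hj, hj'⟩ := h2 a i; exact hj' (c j hj)
  | inner _ _ i H a => exact h3 i H a

lemma not_one {G : Pos} (h : ¬ (LW (add G (term true)) true ↔ LW (add G (term true)) false))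
    (b : Bool) : ¬ Eqv G (one (term b)) := fun e => h (by
  rw [e, e]
  simp [one, add, addN, addT, LW])

lemma red_one {G : Pos} (h : ¬ (LW (add G (term true)) true ↔ LW (add G (term true)) false))
    (r : Reduced G) : Reduced (one G) :=
  red_node (fun b _ e => absurd e (not_one h b)) (by simp) fun _ => r

lemma oY : LW (add Y (term true)) true ∧ ¬ LW (add Y (term true)) false :=
  ⟨⟨0, rfl⟩, fun h => by simpa [add, addT, LW] using h 1⟩

lemma oY1 : ¬ LW (add (one Y) (term true)) true ∧ LW (add (one Y) (term true)) false :=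
  ⟨fun ⟨_, h⟩ => oY.2 h, fun _ => oY.1⟩

lemma rY : Reduced Y := by
  refine red_node (fun b i _ => ⟨0, id⟩) (fun _ i => ?_) fun i => ?_ <;> fin_cases i
  exacts [⟨1, by decide, id⟩, ⟨0, by decide, id⟩, red_term _, red_term _]

lemma rY1 : Reduced (one Y) := red_one (fun h => oY.2 (h.1 oY.1)) rY

lemma rY' : Reduced Y' := by
  refine red_node (fun b i _ => ⟨0, id⟩) (fun _ i => ?_) fun i => ?_ <;> fin_cases i
  exacts [⟨1, by decide, id⟩, ⟨0, by decide, id⟩, ⟨0, by decide, id⟩, red_term _, red_term _, rY1]

lemma rY'1 : Reduced (one Y') :=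
  red_one (by rw [← YY', ← YY']; exact fun h => oY.2 (h.1 oY.1)) rY'

lemma neY : ¬ Eqv Y (one (one Y)) := by
  intro h
  have h1 : LW (add Y (one (term true))) true :=
    (add_node _ _ _ _).1.2 (Or.inl ⟨0, fun _ => rfl⟩)
  rcases (add_node _ _ _ _).1.1 ((h _ _).1 h1) with ⟨_, c⟩ | ⟨_, c⟩
  · exact oY1.1 (((add_node _ _ _ _).2.1 c).2 0)
  · exact oY1.1 (c 0)

theorem result : ∃ G H K : Pos, Relation.ReflTransGen Step G H ∧
    Relation.ReflTransGen Step G K ∧ Reduced H ∧ Reduced K ∧ ¬ Iso H K := by
  refine ⟨node 1 ![one Y, node 1 ![Y', one (one Y)]], one (one Y), node 1 ![one Y, one Y'],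
    .single (Step.s2 1 ![one Y, node 1 ![Y', one (one Y)]] 0 le_rfl fun j hj => ?_),
    .single ?_, red_one (fun h => oY1.1 (h.2 oY1.2)) rY1, red_node ?_ ?_ ?_, ?_⟩
  · fin_cases j
    · exact absurd rfl hj
    · exact ⟨1, Eqv.refl _⟩
  · have := Step.inner 1 ![one Y, node 1 ![Y', one (one Y)]] 1 (one Y')
      (Step.s2 1 ![Y', one (one Y)] 0 le_rfl fun j hj => ?_)
    · convert this using 2
      funext i
      fin_cases i <;> rfl
    · fin_cases j
      · exact absurd rfl hj
      · exact ⟨0, one_congr YY'⟩
  · intro b i e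
    refine absurd e (not_one ?_ b)
    fin_cases i
    · exact fun h => oY1.1 (h.2 oY1.2)
    · show ¬ (LW (add (one Y') _) _ ↔ LW (add (one Y') _) _)
      rw [← one_congr YY', ← one_congr YY']
      exact fun h => oY1.1 (h.2 oY1.2)
  · intro _ i
    fin_cases i
    · exact ⟨1, by decide, fun ⟨_, e⟩ => neY fun X t => (YY' X t).trans (e X t)⟩
    · exact ⟨0, by decide, fun ⟨_, e⟩ => neY fun X t =>
        (e X t).trans (one_congr (one_congr YY') X t).symm⟩
  · intro i
    fin_cases i
    exacts [rY1, rY'1]
  · intro h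
    obtain ⟨_, h⟩ := h.2 1
    obtain ⟨_, h⟩ := h.2 0
    obtain ⟨i, h⟩ := h.2 2
    fin_cases i <;> exact h

end Pool.Agent.Results.MP_31d4f2_co.NoCanon
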